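import Pool.Agent.V11151.Enum3

/-!
# A seven-dimensional polytope without vertex-facet assignment that is not a free join
-/

namespace Pool.Agent.Results.MP_7ca032_co.NotJoin

open Pool.Agent.V11151.Poly Pool.Agent.V11151.Facets Pool.Agent.V11151.HV
  Pool.Agent.V11151.Explicit Pool.Agent.V11151.Enum3

/-- `P` is a polytope: the convex hull of a nonempty finite set. -/
def IsPolytope {n : ℕ} (P : Set (Fin n → ℝ)) : Prop :=
  ∃ S : Set (Fin n → ℝ), S.Finite ∧ S.Nonempty ∧ P = convexHull ℝ S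

/-- A vertex-facet assignment: a matching of vertices with non-incident facets that covers all
the vertices or all the facets. (The facets are the maximal proper faces.) -/
def HasAssignment {n : ℕ} (P : Set (Fin n → ℝ)) : Prop :=
  (∃ f : P.extremePoints ℝ → facets P, Function.Injective f ∧ ∀ v, v.1 ∉ (f v).1) ∨
  (∃ g : facets P → P.extremePoints ℝ, Function.Injective g ∧ ∀ F, (g F).1 ∉ F.1)

/-- `P` is combinatorially equivalent to a free join of two polytopes. -/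
def IsFreeJoin {n : ℕ} (P : Set (Fin n → ℝ)) : Prop :=
  ∃ (k : ℕ) (P₁ P₂ : Set (Fin k → ℝ)), IsPolytope P₁ ∧ IsPolytope P₂ ∧ JoinPos P₁ P₂ ∧
    Nonempty (Faces P ≃o Faces (convexHull ℝ (P₁ ∪ P₂)))

/-- the inequalities of the three-dimensional factor (homogeneous coordinates) -/
def A1 : Fin 15 → Fin 4 → ℤ := ![![44, 2, 2, -1], ![30, 1, 2, 0], ![12, 0, 1, 0], ![22, -1, 2, 0], ![14, -1, 1, 0], ![24, -2, 1, 0], ![14, -1, 0, 0], ![30, -1, -2, 0], ![12, 0, -1, 0], ![22, 1, -2, 0], ![14, 1, -1, 0], ![24, 2, -1, 0], ![14, 1, 0, 0], ![4, 0, 0, -1], ![4, 0, 0, 1]]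

/-- the vertices of the three-dimensional factor (homogeneous coordinates) -/
def V1 : Fin 26 → Fin 4 → ℤ := ![![2, -28, -16, -8], ![2, -12, -24, 8], ![2, -12, -24, -8], ![2, -4, -24, 8], ![2, -4, -24, -8], ![2, 12, -16, 8], ![2, 12, -16, -8], ![2, 20, -8, 8], ![2, 20, -8, -8], ![2, 28, 8, 8], ![2, 28, 8, -8], ![2, 28, 16, 8], ![2, 28, 16, -8], ![2, 12, 24, 8], ![2, 12, 24, -8], ![2, 4, 24, 8], ![2, 4, 24, -8], ![2, -12, 16, 8], ![2, -12, 16, -8], ![2, -20, 8, 8], ![2, -20, 8, -8], ![2, -28, -8, 8], ![2, -28, -8, -8], ![2, -20, -20, 8], ![2, -28, -12, 8], ![2, -28, -16, 0]]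

/-- the vertices of the polytope -/
def X : Fin 33 → Fin 7 → ℤ := ![![-28, -16, -8, 0, 0, 0, 0], ![-12, -24, 8, 0, 0, 0, 0], ![-12, -24, -8, 0, 0, 0, 0], ![-4, -24, 8, 0, 0, 0, 0], ![-4, -24, -8, 0, 0, 0, 0], ![12, -16, 8, 0, 0, 0, 0], ![12, -16, -8, 0, 0, 0, 0], ![20, -8, 8, 0, 0, 0, 0], ![20, -8, -8, 0, 0, 0, 0], ![28, 8, 8, 0, 0, 0, 0], ![28, 8, -8, 0, 0, 0, 0], ![28, 16, 8, 0, 0, 0, 0], ![28, 16, -8, 0, 0, 0, 0], ![12, 24, 8, 0, 0, 0, 0], ![12, 24, -8, 0, 0, 0, 0], ![4, 24, 8, 0, 0, 0, 0], ![4, 24, -8, 0, 0, 0, 0], ![-12, 16, 8, 0, 0, 0, 0], ![-12, 16, -8, 0, 0, 0, 0], ![-20, 8, 8, 0, 0, 0, 0], ![-20, 8, -8, 0, 0, 0, 0], ![-28, -8, 8, 0, 0, 0, 0], ![-28, -8, -8, 0, 0, 0, 0], ![-20, -20, 8, 0, 0, 0, 0], ![-28, -12, 8, 0, 0, 0, 0], ![-28, -16, 0, 0, 0, 0, 0], ![0, 0, 0, 2, 2, 0, 0], ![0, 0, 0, 2, -2, 0, 0], ![0, 0, 0, 2, 0, 2, 0], ![0, 0, 0, 2, 0, -2, 0], ![0, 0, 0, 2, 0, 0, 2], ![0, 0, 0, 2, 0, 0,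 -2], ![-13, -8, 3, 1, 0, 0, 0]]

/-- the coefficients of the facet inequalities -/
def F : Fin 33 → Fin 7 → ℤ := ![![1, 2, 0, -30, 0, 0, 0], ![0, 1, 0, -12, 0, 0, 0], ![-1, 2, 0, -22, 0, 0, 0], ![-1, 1, 0, -14, 0, 0, 0], ![-2, 1, 0, -24, 0, 0, 0], ![-1, 0, 0, -14, 0, 0, 0], ![-1, -2, 0, -30, 0, 0, 0], ![0, -1, 0, -12, 0, 0, 0], ![1, -2, 0, -22, 0, 0, 0], ![1, -1, 0, -14, 0, 0, 0], ![2, -1, 0, -24, 0, 0, 0], ![1, 0, 0, -14, 0, 0, 0], ![0, 0, -1, -4, 0, 0, 0], ![0, 0, 1, -4, 0, 0, 0], ![0, 0, 0, 1, 1, 1, 1], ![0, 0, 0, 1, 1, 1, -1], ![0, 0, 0, 1, 1, -1, 1], ![0, 0, 0, 1, 1, -1, -1], ![0, 0, 0, 1, -1, 1, 1], ![0, 0, 0, 1, -1, 1, -1], ![0, 0, 0, 1, -1, -1, 1], ![0, 0, 0, 1, -1, -1, -1], ![3, 2, -1, -58, 0, 0, 0], ![3, 4, -1, -74, 0, 0, 0], ![2, 2, -2, -48, 0, 0, 0], ![2, 2, -1, -43, 1, 1, 1], ![2, 2, -1, -43, 1, 1, -1], ![2, 2, -1, -43, 1, -1, 1], ![2, 2, -1, -43, 1, -1, -1], ![2, 2, -1, -43, -1, 1, 1], ![2,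 2, -1, -43, -1, 1, -1], ![2, 2, -1, -43, -1, -1, 1], ![2, 2, -1, -43, -1, -1, -1]]

/-- the right-hand sides of the facet inequalities -/
def c : Fin 33 → ℤ := ![-60, -24, -44, -28, -48, -28, -60, -24, -44, -28, -48, -28, -8, -8, 0, 0, 0, 0, 0, 0, 0, 0, -116, -148, -96, -88, -88, -88, -88, -88, -88, -88, -88]

/-- coefficients showing that the polytope is full-dimensional -/
def cs : Fin 7 → Fin 33 → ℤ := ![![0, 0, 0, 0, 0, 0, 0, -2, 0, 6, 0, -4, 0, 0, 0, 0, 0, 0, 0, 0, 0, 0, 0, 0, 0, 0, 0, 0, 0, 0, 0, 0, 0], ![0, 0, 0, 0, 0, 0, 0, 0, 0, -2, 0, 2, 0, 0, 0, 0, 0, 0, 0, 0, 0, 0, 0, 0, 0, 0, 0, 0, 0, 0, 0, 0, 0], ![0, 0, 0, 0, 0, 0, 0, 0, 0, 1, -1, 0, 0, 0, 0, 0, 0, 0, 0, 0, 0, 0, 0, 0, 0, 0, 0, 0, 0, 0, 0, 0, 0], ![-4, 0, 0, 0, 0, 0, 0, 0, 0, 0, 0, -4, 0, 0, 0, 0, 0, 0, 0, 0, 0, 0, 0, 0, 0, 0, 4, 4, 0, 0, 0, 0, 0], ![0, 0, 0, 0, 0, 0, 0, 0, 0, 0, 0, 0, 0, 0, 0, 0, 0, 0, 0, 0, 0, 0, 0, 0, 0, 0, 4, -4, 0,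 0, 0, 0, 0], ![0, 0, 0, 0, 0, 0, 0, 0, 0, 0, 0, 0, 0, 0, 0, 0, 0, 0, 0, 0, 0, 0, 0, 0, 0, 0, 0, 0, 4, -4, 0, 0, 0], ![0, 0, 0, 0, 0, 0, 0, 0, 0, 0, 0, 0, 0, 0, 0, 0, 0, 0, 0, 0, 0, 0, 0, 0, 0, 0, 0, 0, 0, 0, 4, -4, 0]]

/-! ### The three-dimensional factor -/

/-- the linear part of an inequality -/
def la (i : Fin 15) : Fin 3 → ℤ := ![-A1 i 1, -A1 i 2, -A1 i 3]

/-- the bound of an inequality -/
def lb (i : Fin 15) : ℤ := 2 * A1 i 0

/-- the vertices of the three-dimensional polytope -/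
def v1 (n : Fin 26) : Fin 3 → ℤ := ![V1 n 1, V1 n 2, V1 n 3]

lemma enum_check : ∀ i j k : Fin 15, dd la i j k ≠ 0 →
      (∃ r : Fin 26, ∀ t : Fin 3, cr la lb i j k t = dd la i j k * v1 r t) ∨
      (∃ l : Fin 15, lb l * dd la i j k ^ 2 < dd la i j k *
        (la l 0 * cr la lb i j k 0 + la l 1 * cr la lb i j k 1 + la l 2 * cr la lb i j k 2)) := by
  decide +kernel

lemma P1_sub : PH la lb ⊆ convexHull ℝ (Set.range fun r => pt (v1 r)) := by
  apply PH_sub la lb v1 ![-28, -24, -8] ![28, 24, 8] _ enum_check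
  intro y hy
  have h6 := hy 6
  have h12 := hy 12
  have h2 := hy 2
  have h8 := hy 8
  have h13 := hy 13
  have h14 := hy 14
  simp [dotProduct, Fin.sum_univ_three, pt, la, lb, A1] at h6 h12 h2 h8 h13 h14
  constructor
  · intro i
    fin_cases i <;> simp <;> linarith
  · intro i
    fin_cases i <;> simp <;> linarith

/-! ### The cone over the polytope -/

/-- homogeneous coordinates of the vertices -/
def VH (i : Fin 33) : Fin 8 → ℝ := ![2 - X i 3, X i 0, X i 1, X i 2, X i 3, X i 4, X i 5, X i 6]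

/-- the cone over the polytope -/
def K : Set (Fin 8 → ℝ) := {y | ∃ w : Fin 33 → ℝ, (∀ i, 0 ≤ w i) ∧ y = ∑ i, w i • VH i}

lemma K_add {y z : Fin 8 → ℝ} (hy : y ∈ K) (hz : z ∈ K) : y + z ∈ K := by
  obtain ⟨w, hw, rfl⟩ := hy
  obtain ⟨w', hw', rfl⟩ := hz
  refine ⟨fun i => w i + w' i, fun i => add_nonneg (hw i) (hw' i), ?_⟩
  rw [← Finset.sum_add_distrib]
  apply Finset.sum_congr rfl
  intro i _
  rw [add_smul]

lemma K_smul {y : Fin 8 → ℝ} {r : ℝ} (hr : 0 ≤ r) (hy : y ∈ K) : r • y ∈ K := by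
  obtain ⟨w, hw, rfl⟩ := hy
  refine ⟨fun i => r * w i, fun i => mul_nonneg hr (hw i), ?_⟩
  rw [Finset.smul_sum]
  apply Finset.sum_congr rfl
  intro i _
  rw [smul_smul]

lemma K_gen (i : Fin 33) : VH i ∈ K := by
  classical
  refine ⟨fun k => if k = i then 1 else 0, fun k => by dsimp only; split_ifs <;> norm_num, ?_⟩
  simp

lemma K_zero : (0 : Fin 8 → ℝ) ∈ K := ⟨fun _ => 0, fun _ => le_rfl, by simp⟩

lemma K_convex : Convex ℝ K := by
  intro y hy z hz a b ha hb _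
  exact K_add (K_smul ha hy) (K_smul hb hz)

lemma X_V1 : ∀ n : Fin 26, X (Fin.castLE (by norm_num) n) = ![V1 n 1, V1 n 2, V1 n 3, 0, 0, 0, 0] := by
  decide +kernel

lemma cone1 (u0 u1 u2 u3 : ℝ) (h : ∀ i, 0 ≤ (A1 i 0 : ℝ) * u0 + (A1 i 1 : ℝ) * u1 +
    (A1 i 2 : ℝ) * u2 + (A1 i 3 : ℝ) * u3) : ![u0, u1, u2, u3, 0, 0, 0, 0] ∈ K := by
  have h3 := h 3
  have h6 := h 6
  have h9 := h 9
  have h12 := h 12
  have h13 := h 13
  have h14 := h 14
  simp [A1] at h3 h6 h9 h12 h13 h14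
  have hu0 : 0 ≤ u0 := by linarith
  rcases eq_or_lt_of_le hu0 with h0 | h0
  · have e3 : u3 = 0 := by linarith
    have e1 : u1 = 0 := by linarith
    have e2 : u2 = 0 := by linarith
    have : (![u0, u1, u2, u3, 0, 0, 0, 0] : Fin 8 → ℝ) = 0 := by
      rw [← h0, e1, e2, e3]
      funext i
      fin_cases i <;> rfl
    rw [this]
    exact K_zero
  · have hy : (![2 / u0 * u1, 2 / u0 * u2, 2 / u0 * u3] : Fin 3 → ℝ) ∈ PH la lb := by
      intro i
      have hi := mul_nonneg (div_pos (by norm_num : (0 : ℝ) < 2) h0).le (h i)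
      have e : 2 / u0 * ((A1 i 0 : ℝ) * u0 + (A1 i 1 : ℝ) * u1 +
        (A1 i 2 : ℝ) * u2 + (A1 i 3 : ℝ) * u3) = 2 * (A1 i 0 : ℝ) + (A1 i 1 : ℝ) * (2 / u0 * u1) +
        (A1 i 2 : ℝ) * (2 / u0 * u2) + (A1 i 3 : ℝ) * (2 / u0 * u3) := by
        field_simp
      rw [e] at hi
      simp [dotProduct, Fin.sum_univ_three, pt, la, lb]
      linarith
    have hsub : convexHull ℝ (Set.range fun r => pt (v1 r)) ⊆
        {y : Fin 3 → ℝ | (![2, y 0, y 1, y 2, 0, 0, 0, 0] : Fin 8 → ℝ) ∈ K} := by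
      apply convexHull_min
      · rintro _ ⟨n, rfl⟩
        have h1 := K_gen (Fin.castLE (by norm_num) n)
        have h2 : VH (Fin.castLE (by norm_num) n) =
            (![2, pt (v1 n) 0, pt (v1 n) 1, pt (v1 n) 2, 0, 0, 0, 0] : Fin 8 → ℝ) := by
          unfold VH
          rw [X_V1]
          funext i
          fin_cases i <;> simp [pt, v1]
        rw [h2] at h1
        exact h1
      · intro y hy z hz a b ha hb hab
        have h1 := K_convex hy hz ha hb hab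
        have h2 : a • (![2, y 0, y 1, y 2, 0, 0, 0, 0] : Fin 8 → ℝ) +
            b • (![2, z 0, z 1, z 2, 0, 0, 0, 0] : Fin 8 → ℝ) =
            ![2, (a • y + b • z) 0, (a • y + b • z) 1, (a • y + b • z) 2, 0, 0, 0, 0] := by
          funext i
          fin_cases i <;> simp
          linarith
        rw [h2] at h1
        exact h1
    have h1 := hsub (P1_sub hy)
    have h2 := K_smul (div_pos h0 (by norm_num : (0 : ℝ) < 2)).le h1
    have h3 : (u0 / 2) • (![2, (![2 / u0 * u1, 2 / u0 * u2, 2 / u0 * u3] : Fin 3 → ℝ) 0,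
        (![2 / u0 * u1, 2 / u0 * u2, 2 / u0 * u3] : Fin 3 → ℝ) 1,
        (![2 / u0 * u1, 2 / u0 * u2, 2 / u0 * u3] : Fin 3 → ℝ) 2, 0, 0, 0, 0] : Fin 8 → ℝ) =
        ![u0, u1, u2, u3, 0, 0, 0, 0] := by
      funext i
      fin_cases i <;> simp <;> field_simp
    rw [h3] at h2
    exact h2

lemma cone2 (v0 v1 v2 v3 : ℝ) (h : |v1| + |v2| + |v3| ≤ v0) :
    ![0, 0, 0, 0, v0, v1, v2, v3] ∈ K := by
  have e : (![0, 0, 0, 0, v0, v1, v2, v3] : Fin 8 → ℝ) =
      ((|v1| + v1) / 4 + (v0 - (|v1| + |v2| + |v3|)) / 4) • VH 26 +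
      ((|v1| - v1) / 4 + (v0 - (|v1| + |v2| + |v3|)) / 4) • VH 27 +
      ((|v2| + v2) / 4) • VH 28 + ((|v2| - v2) / 4) • VH 29 +
      ((|v3| + v3) / 4) • VH 30 + ((|v3| - v3) / 4) • VH 31 := by
    funext i
    fin_cases i <;> simp [VH, X] <;> ring
  rw [e]
  have p1 := neg_abs_le v1
  have p2 := neg_abs_le v2
  have p3 := neg_abs_le v3
  have r1 := le_abs_self v1
  have r2 := le_abs_self v2
  have r3 := le_abs_self v3
  refine K_add (K_add (K_add (K_add (K_add ?_ ?_) ?_) ?_) ?_) ?_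
  · exact K_smul (by linarith) (K_gen _)
  · exact K_smul (by linarith) (K_gen _)
  · exact K_smul (by linarith) (K_gen _)
  · exact K_smul (by linarith) (K_gen _)
  · exact K_smul (by linarith) (K_gen _)
  · exact K_smul (by linarith) (K_gen _)

lemma poly_of_K (x : Fin 7 → ℝ) (h : ![2 - x 3, x 0, x 1, x 2, x 3, x 4, x 5, x 6] ∈ K) :
    x ∈ poly X := by
  obtain ⟨w, hw, hx⟩ := h
  have e : ∀ k : Fin 8, (![2 - x 3, x 0, x 1, x 2, x 3, x 4, x 5, x 6] : Fin 8 → ℝ) k =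
      ∑ i, w i * VH i k := by
    intro k
    rw [hx]
    simp [Finset.sum_apply]
  have e0 := e 0
  have e1 := e 1
  have e2 := e 2
  have e3 := e 3
  have e4 := e 4
  have e5 := e 5
  have e6 := e 6
  have e7 := e 7
  simp only [VH, Matrix.cons_val] at e0 e1 e2 e3 e4 e5 e6 e7
  have hsum : ∑ i, w i = 1 := by
    have h1 : ∑ i, w i * (2 - (X i 3 : ℝ)) + ∑ i, w i * (X i 3 : ℝ) = 2 * ∑ i, w i := by
      rw [← Finset.sum_add_distrib, Finset.mul_sum]
      apply Finset.sum_congr rfl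
      intro i _
      ring
    rw [← e0, ← e4] at h1
    linarith
  have hmem := (convex_convexHull ℝ (Set.range fun i => pt (X i))).sum_mem (t := Finset.univ)
    (w := w) (z := fun i => pt (X i)) (fun i _ => hw i) hsum
    (fun i _ => subset_convexHull ℝ _ ⟨i, rfl⟩)
  have hxe : ∑ i, w i • pt (X i) = x := by
    funext k
    simp only [Finset.sum_apply, Pi.smul_apply, smul_eq_mul, pt]
    fin_cases k
    · exact e1.symm
    · exact e2.symm
    · exact e3.symm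
    · exact e4.symm
    · exact e5.symm
    · exact e6.symm
    · exact e7.symm
  rw [hxe] at hmem
  exact hmem

lemma abs_sum {a b d r : ℝ} (h1 : 0 ≤ r + a + b + d) (h2 : 0 ≤ r + a + b - d)
    (h3 : 0 ≤ r + a - b + d) (h4 : 0 ≤ r + a - b - d) (h5 : 0 ≤ r - a + b + d)
    (h6 : 0 ≤ r - a + b - d) (h7 : 0 ≤ r - a - b + d) (h8 : 0 ≤ r - a - b - d) :
    |a| + |b| + |d| ≤ r := by
  rcases abs_cases a with ⟨e1, _⟩ | ⟨e1, _⟩ <;> rcases abs_cases b with ⟨e2, _⟩ | ⟨e2, _⟩ <;>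
    rcases abs_cases d with ⟨e3, _⟩ | ⟨e3, _⟩ <;> rw [e1, e2, e3] <;> linarith

lemma complete (x : Fin 7 → ℝ) (hx : ∀ j, (c j : ℝ) ≤ fn (F j) x) : x ∈ poly X := by
  apply poly_of_K
  have h0 := hx 0
  have h1 := hx 1
  have h2 := hx 2
  have h3 := hx 3
  have h4 := hx 4
  have h5 := hx 5
  have h6 := hx 6
  have h7 := hx 7
  have h8 := hx 8
  have h9 := hx 9
  have h10 := hx 10
  have h11 := hx 11
  have h12 := hx 12
  have h13 := hx 13
  simp only [fn_apply, Fin.sum_univ_succ, Fin.sum_univ_zero] at h0 h1 h2 h3 h4 h5 h6 h7 h8 h9 h10 h11 h12 h13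
  simp [F, c] at h0 h1 h2 h3 h4 h5 h6 h7 h8 h9 h10 h11 h12 h13
  rcases le_or_gt 0 (44 * (2 - x 3) + 2 * x 0 + 2 * x 1 - x 2) with hs | hs
  · have h14 := hx 14
    have h15 := hx 15
    have h16 := hx 16
    have h17 := hx 17
    have h18 := hx 18
    have h19 := hx 19
    have h20 := hx 20
    have h21 := hx 21
    simp only [fn_apply, Fin.sum_univ_succ, Fin.sum_univ_zero] at h14 h15 h16 h17 h18 h19 h20 h21
    simp [F, c] at h14 h15 h16 h17 h18 h19 h20 h21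
    have k1 : ![2 - x 3, x 0, x 1, x 2, 0, 0, 0, 0] ∈ K := by
      apply cone1
      intro i
      fin_cases i <;> simp [A1] <;> linarith
    have k2 : ![0, 0, 0, 0, x 3, x 4, x 5, x 6] ∈ K := by
      apply cone2
      apply abs_sum <;> linarith
    have := K_add k1 k2
    have e : (![2 - x 3, x 0, x 1, x 2, 0, 0, 0, 0] : Fin 8 → ℝ) +
        ![0, 0, 0, 0, x 3, x 4, x 5, x 6] = ![2 - x 3, x 0, x 1, x 2, x 3, x 4, x 5, x 6] := by
      funext i
      fin_cases i <;> simp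
    rwa [e] at this
  · have h22 := hx 22
    have h23 := hx 23
    have h24 := hx 24
    have h25 := hx 25
    have h26 := hx 26
    have h27 := hx 27
    have h28 := hx 28
    have h29 := hx 29
    have h30 := hx 30
    have h31 := hx 31
    have h32 := hx 32
    simp only [fn_apply, Fin.sum_univ_succ, Fin.sum_univ_zero] at h22 h23 h24 h25 h26 h27 h28 h29 h30 h31 h32
    simp [F, c] at h22 h23 h24 h25 h26 h27 h28 h29 h30 h31 h32
    obtain ⟨s, hs'⟩ : ∃ s, s = 44 * (2 - x 3) + 2 * x 0 + 2 * x 1 - x 2 := ⟨_, rfl⟩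
    have k2 : ![0, 0, 0, 0, x 3 + s, x 4, x 5, x 6] ∈ K := by
      apply cone2
      apply abs_sum <;> linarith
    have k3 : (-s) • VH 32 ∈ K := K_smul (by linarith) (K_gen _)
    have k4 : ((14 * (2 - x 3) + x 0 + s) / 8) • VH 23 ∈ K := K_smul (by linarith) (K_gen _)
    have k5 : ((30 * (2 - x 3) + x 0 + 2 * x 1 + s) / 8) • VH 24 ∈ K :=
      K_smul (by linarith) (K_gen _)
    have k6 : ((4 * (2 - x 3) - x 2 + s) / 8) • VH 25 ∈ K := K_smul (by linarith) (K_gen _)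
    have := K_add (K_add (K_add (K_add k2 k3) k4) k5) k6
    have e : (![0, 0, 0, 0, x 3 + s, x 4, x 5, x 6] : Fin 8 → ℝ) + (-s) • VH 32 +
        ((14 * (2 - x 3) + x 0 + s) / 8) • VH 23 +
        ((30 * (2 - x 3) + x 0 + 2 * x 1 + s) / 8) • VH 24 +
        ((4 * (2 - x 3) - x 2 + s) / 8) • VH 25 =
        ![2 - x 3, x 0, x 1, x 2, x 3, x 4, x 5, x 6] := by
      rw [hs']
      funext i
      fin_cases i <;> simp [VH, X] <;> ring
    rwa [e] at this

/-! ### Facets and vertices -/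

lemma valid : ∀ j i, c j ≤ idot (F j) (X i) := by decide +kernel

lemma vert_check : ∀ i k : Fin 33, k ≠ i → ∃ j, idot (F j) (X i) = c j ∧ idot (F j) (X k) ≠ c j := by
  decide +kernel

lemma facet_check : ∀ j k : Fin 33, k ≠ j → ∃ i, idot (F j) (X i) = c j ∧ idot (F k) (X i) ≠ c k := by
  decide +kernel

lemma proper_check : ∀ j : Fin 33, ∃ i, c j < idot (F j) (X i) := by decide +kernel

lemma conn_check : ∀ k : Fin 33, ∃ j, idot (F j) (X 32) ≠ c j ∧ idot (F j) (X k) ≠ c j := by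
  decide +kernel

lemma all_check : ∀ i j : Fin 33, i.val < 26 → 14 ≤ j.val → j.val < 22 → idot (F j) (X i) = c j := by
  decide +kernel

/-- the facets -/
def Fc (j : Fin 33) : Set (Fin 7 → ℝ) := fc (fun i => pt (X i)) (fn (F j)) (c j)

lemma valid' (j i : Fin 33) : (c j : ℝ) ≤ fn (F j) (pt (X i)) := by
  rw [fn_pt]; exact_mod_cast valid j i

lemma proper' (j : Fin 33) : ∃ i, (c j : ℝ) < fn (F j) (pt (X i)) := by
  obtain ⟨i, hi⟩ := proper_check j
  exact ⟨i, by rw [fn_pt]; exact_mod_cast hi⟩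

lemma facets_sub' : facets (poly X) ⊆ Set.range Fc :=
  facets_sub (fun i => pt (X i)) (fun j => fn (F j)) (fun j => (c j : ℝ)) valid' complete proper'

lemma Fc_mem (j : Fin 33) : Fc j ∈ facets (poly X) := by
  apply fc_mem_facets (fun i => pt (X i)) (fun j => fn (F j)) (fun j => (c j : ℝ)) valid' complete j
    (proper' j)
  intro k hk
  obtain ⟨i, hi1, hi2⟩ := facet_check j k hk
  refine ⟨i, by rw [fn_pt]; exact_mod_cast hi1, ?_⟩
  rw [fn_pt]
  exact_mod_cast hi2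

lemma mem_Fc (i j : Fin 33) : pt (X i) ∈ Fc j ↔ idot (F j) (X i) = c j := by
  constructor
  · rintro ⟨_, h⟩
    rw [fn_pt] at h
    exact_mod_cast h
  · intro h
    refine ⟨subset_convexHull ℝ _ ⟨i, rfl⟩, ?_⟩
    rw [fn_pt]
    exact_mod_cast h

lemma Fc_inj {j k : Fin 33} (h : Fc j = Fc k) : j = k := by
  by_contra hne
  obtain ⟨i, hi1, hi2⟩ := facet_check j k (Ne.symm hne)
  apply hi2
  rw [← mem_Fc, ← h, mem_Fc]
  exact hi1

lemma vert (i : Fin 33) : pt (X i) ∈ (poly X).extremePoints ℝ :=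
  extreme_of_cert X F c valid vert_check i

lemma vert_inj {i k : Fin 33} (h : pt (X i) = pt (X k)) : i = k := by
  by_contra hne
  obtain ⟨j, hj1, hj2⟩ := vert_check i k (Ne.symm hne)
  apply hj2
  rw [← mem_Fc, ← h, mem_Fc]
  exact hj1

lemma no_assignment : ¬ HasAssignment (poly X) := by
  rintro (⟨f, hf, hv⟩ | ⟨g, hg, hv⟩)
  · have h1 : ∀ i : Fin 26, ∃ j : Fin 33,
        Fc j = (f ⟨pt (X (Fin.castLE (by norm_num) i)), vert _⟩).1 := by
      intro i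
      obtain ⟨j, hj⟩ := facets_sub' (f ⟨pt (X (Fin.castLE (by norm_num) i)), vert _⟩).2
      exact ⟨j, hj⟩
    choose s hs using h1
    have hinj : Function.Injective s := by
      intro i k hik
      have h2 : (f ⟨pt (X (Fin.castLE (by norm_num) i)), vert _⟩) =
          (f ⟨pt (X (Fin.castLE (by norm_num) k)), vert _⟩) := by
        apply Subtype.ext
        rw [← hs i, ← hs k, hik]
      have h3 := congrArg Subtype.val (hf h2)
      have h4 := vert_inj h3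
      exact Fin.castLE_injective _ h4
    have himg : ∀ i ∈ (Finset.univ : Finset (Fin 26)), s i ∈
        (Finset.univ.filter fun j : Fin 33 => ¬ (14 ≤ j.val ∧ j.val < 22)) := by
      intro i _
      rw [Finset.mem_filter]
      refine ⟨Finset.mem_univ _, ?_⟩
      rintro ⟨ha, hb⟩
      have h2 := hv ⟨pt (X (Fin.castLE (by norm_num) i)), vert _⟩
      apply h2
      rw [← hs i, mem_Fc]
      exact all_check _ _ i.isLt ha hb
    have hcard := Finset.card_le_card_of_injOn s himg hinj.injOn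
    have h5 : (Finset.univ.filter fun j : Fin 33 => ¬ (14 ≤ j.val ∧ j.val < 22)).card = 25 := by
      decide +kernel
    rw [h5, Finset.card_univ, Fintype.card_fin] at hcard
    omega
  · have h1 : ∀ j : Fin 8, ∃ i : Fin 33,
        pt (X i) = (g ⟨Fc ⟨14 + j.val, by omega⟩, Fc_mem _⟩).1 := by
      intro j
      have := (g ⟨Fc ⟨14 + j.val, by omega⟩, Fc_mem _⟩).2
      obtain ⟨i, hi⟩ := extremePoints_convexHull_subset this
      exact ⟨i, hi⟩
    choose s hs using h1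
    have hinj : Function.Injective s := by
      intro i k hik
      have h2 : (g ⟨Fc ⟨14 + i.val, by omega⟩, Fc_mem _⟩) =
          (g ⟨Fc ⟨14 + k.val, by omega⟩, Fc_mem _⟩) := by
        apply Subtype.ext
        rw [← hs i, ← hs k, hik]
      have h3 := congrArg Subtype.val (hg h2)
      have h4 := congrArg Fin.val (Fc_inj h3)
      simp only at h4
      apply Fin.ext
      omega
    have himg : ∀ i ∈ (Finset.univ : Finset (Fin 8)), s i ∈
        (Finset.univ.filter fun j : Fin 33 => 26 ≤ j.val) := by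
      intro i _
      rw [Finset.mem_filter]
      refine ⟨Finset.mem_univ _, ?_⟩
      by_contra hlt
      have h2 := hv ⟨Fc ⟨14 + i.val, by omega⟩, Fc_mem _⟩
      apply h2
      show (g ⟨Fc ⟨14 + i.val, by omega⟩, Fc_mem _⟩).1 ∈ Fc ⟨14 + i.val, by omega⟩
      rw [← hs i, mem_Fc]
      exact all_check _ _ (by omega) (by simp) (by simp only; omega)
    have hcard := Finset.card_le_card_of_injOn s himg hinj.injOn
    have h5 : (Finset.univ.filter fun j : Fin 33 => 26 ≤ j.val).card = 7 := by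
      decide +kernel
    rw [h5, Finset.card_univ, Fintype.card_fin] at hcard
    omega

lemma vs_hull {n : ℕ} (A : Set (Fin n → ℝ)) :
    vectorSpan ℝ (convexHull ℝ A) = vectorSpan ℝ A := by
  rw [← direction_affineSpan, affineSpan_convexHull, direction_affineSpan]

lemma not_join : ¬ IsFreeJoin (poly X) := by
  rintro ⟨k, P₁, P₂, ⟨A, hA, hA0, rfl⟩, ⟨B, hB, hB0, rfl⟩, hj, ⟨φ⟩⟩
  have e : convexHull ℝ (convexHull ℝ A ∪ convexHull ℝ B) = convexHull ℝ (A ∪ B) := by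
    rw [convexHull_convexHull_union_left, convexHull_convexHull_union_right]
  rw [e] at φ
  have hj' : JoinPos A B := by
    unfold JoinPos at hj ⊢
    rw [vs_hull, vs_hull, ← vs_hull (convexHull ℝ A ∪ convexHull ℝ B), e, vs_hull] at hj
    exact hj
  obtain ⟨σ, τ, hσ, hτ, hσ0, hτ0, hfac, hver⟩ := join_prop (P := poly X)
    (Set.finite_range fun i => pt (X i)) rfl hA hB hA0 hB0 hj' φ
  have hvtx : ∀ G, IsExposed ℝ (poly X) G → G.Nonempty → ∃ k, pt (X k) ∈ G := by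
    intro G hG hG0
    have h1 := face_eq_hull hG
    by_contra hcon
    push Not at hcon
    have h2 : (Set.range fun i => pt (X i)) ∩ G = ∅ := by
      ext y
      simp only [Set.mem_inter_iff, Set.mem_range, Set.mem_empty_iff_false, iff_false, not_and]
      rintro ⟨k, rfl⟩
      exact hcon k
    rw [h2, convexHull_empty] at h1
    rw [h1] at hG0
    exact Set.not_nonempty_empty hG0
  have key : ∀ σ τ : Set (Fin 7 → ℝ), IsExposed ℝ (poly X) τ → τ.Nonempty →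
      (∀ F ∈ facets (poly X), σ ⊆ F ∨ τ ⊆ F) → pt (X 32) ∉ σ := by
    intro σ τ hτ hτ0 hfac hmem
    obtain ⟨k, hk⟩ := hvtx τ hτ hτ0
    obtain ⟨j, hj1, hj2⟩ := conn_check k
    rcases hfac (Fc j) (Fc_mem j) with h | h
    · exact hj1 ((mem_Fc _ _).1 (h hmem))
    · exact hj2 ((mem_Fc _ _).1 (h hk))
  rcases hver _ (vert 32) with h | h
  · exact key σ τ hτ hτ0 hfac h
  · exact key τ σ hσ hσ0 (fun F hF => (hfac F hF).symm) h

/-- There is a 7-dimensional polytope that has no vertex-facet assignment and is not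
combinatorially equivalent to a free join. -/
theorem result : ∃ P : Set (Fin 7 → ℝ), IsPolytope P ∧ affineSpan ℝ P = ⊤ ∧
    ¬ HasAssignment P ∧ ¬ IsFreeJoin P := by
  refine ⟨poly X, ⟨_, Set.finite_range _, Set.range_nonempty _, rfl⟩, ?_, no_assignment, not_join⟩
  refine affineSpan_top X cs 16 (by norm_num) ?_ ?_
  · decide +kernel
  · decide +kernel

end Pool.Agent.Results.MP_7ca032_co.NotJoin
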